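import Pool.Agent.KS6_46.BL.Polish

/-!
# Countable families of moduli of continuity, and Hölder functions
-/

set_option autoImplicit false

open Set Cardinal Filter Topology

namespace Pool.Agent.KS6_46.BL

/-- For countably many moduli of continuity there is one which is eventually below them all. -/
lemma exists_below (H : ℕ → ℝ → ℝ) (hH : ∀ n ε, 0 < ε → 0 < H n ε) :
    ∃ h : ℝ → ℝ, (∀ ε, 0 < ε → 0 < h ε) ∧
      ∀ n, ∃ ε₀ : ℝ, 0 < ε₀ ∧ ∀ ε, 0 < ε → ε < ε₀ → h ε ≤ H n ε := by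
  classical
  refine ⟨fun ε => (Finset.range (⌊1 / ε⌋₊ + 1)).inf' ⟨0, by simp⟩ (fun k => H k ε), ?_, ?_⟩
  · intro ε hε
    rw [Finset.lt_inf'_iff]
    intro k _
    exact hH k ε hε
  · intro n
    refine ⟨1 / ((n : ℝ) + 1), by positivity, fun ε hε hlt => ?_⟩
    refine Finset.inf'_le (f := fun k => H k ε) ?_
    rw [Finset.mem_range]
    have h1 : (n : ℝ) ≤ 1 / ε := by
      rw [le_div_iff₀ hε]
      rw [lt_div_iff₀ (by positivity)] at hlt
      nlinarith
    exact Nat.lt_succ_of_le (Nat.le_floor h1)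

lemma HasMod.mono {X Y : Type} [MetricSpace X] [MetricSpace Y] {h h' : ℝ → ℝ} {f : X → Y}
    {S : Set X} (hf : HasMod h' f S)
    (hle : ∃ ε₀ : ℝ, 0 < ε₀ ∧ ∀ ε, 0 < ε → ε < ε₀ → h ε ≤ h' ε) : HasMod h f S := by
  obtain ⟨ε₀, h0, h1⟩ := hf
  obtain ⟨ε₁, h2, h3⟩ := hle
  refine ⟨min ε₀ ε₁, lt_min h0 h2, fun ε hε hlt x hx y hy hxy => ?_⟩
  exact h1 ε hε (hlt.trans_le (min_le_left _ _)) x hx y hy
    (hxy.trans_le (h3 ε hε (hlt.trans_le (min_le_right _ _))))

/-- Hölder functions have the modulus of continuity `exp (-1 / ε)` at small scales. -/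
lemma hoelder_hasMod {X Y : Type} [MetricSpace X] [MetricSpace Y] {f : X → Y} {S : Set X}
    {C α : ℝ} (hα : 0 < α) (hf : ∀ x ∈ S, ∀ y ∈ S, dist (f x) (f y) ≤ C * dist x y ^ α) :
    HasMod (fun ε => Real.exp (-1 / ε)) f S := by
  have hC : 0 < |C| + 1 := by positivity
  refine ⟨α ^ 2 / (2 * (|C| + 1)), by positivity, fun ε hε hε' x hx y hy hxy => ?_⟩
  have h1 : dist x y ^ α ≤ Real.exp (-1 / ε) ^ α :=
    Real.rpow_le_rpow dist_nonneg hxy.le hα.le
  have h2 : Real.exp (-1 / ε) ^ α = Real.exp (-(α / ε)) := by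
    rw [← Real.exp_mul]
    congr 1
    ring
  have h3 : (α / ε) ^ 2 / 2 < Real.exp (α / ε) := by
    have e1 := Real.quadratic_le_exp_of_nonneg (x := α / ε) (by positivity)
    have e2 : 0 < α / ε := by positivity
    linarith
  have h4 : Real.exp (-(α / ε)) * ((α / ε) ^ 2 / 2) < 1 := by
    have e1 : Real.exp (-(α / ε)) * Real.exp (α / ε) = 1 := by
      rw [← Real.exp_add]
      simp
    rw [← e1]
    exact mul_lt_mul_of_pos_left h3 (Real.exp_pos _)
  have h5 : Real.exp (-(α / ε)) < 2 * ε ^ 2 / α ^ 2 := by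
    rw [lt_div_iff₀ (by positivity)]
    have e1 : Real.exp (-(α / ε)) * ((α / ε) ^ 2 / 2) * (2 * ε ^ 2) =
        Real.exp (-(α / ε)) * α ^ 2 := by
      field_simp
    rw [← e1]
    calc Real.exp (-(α / ε)) * ((α / ε) ^ 2 / 2) * (2 * ε ^ 2) < 1 * (2 * ε ^ 2) :=
          mul_lt_mul_of_pos_right h4 (by positivity)
      _ = 2 * ε ^ 2 := one_mul _
  have h6 : dist (f x) (f y) ≤ (|C| + 1) * Real.exp (-(α / ε)) := by
    refine (hf x hx y hy).trans ?_
    have e1 : 0 ≤ dist x y ^ α := Real.rpow_nonneg dist_nonneg _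
    have e2 : C ≤ |C| + 1 := by linarith [le_abs_self C]
    calc C * dist x y ^ α ≤ (|C| + 1) * dist x y ^ α := mul_le_mul_of_nonneg_right e2 e1
      _ ≤ (|C| + 1) * Real.exp (-(α / ε)) := by
        rw [← h2]
        exact mul_le_mul_of_nonneg_left h1 hC.le
  have h7 : (|C| + 1) * Real.exp (-(α / ε)) < (|C| + 1) * (2 * ε ^ 2 / α ^ 2) :=
    mul_lt_mul_of_pos_left h5 hC
  have h8 : (|C| + 1) * (2 * ε ^ 2 / α ^ 2) ≤ ε := by
    rw [lt_div_iff₀ (by positivity)] at hε'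
    rw [mul_div_assoc', div_le_iff₀ (by positivity)]
    nlinarith [mul_le_mul_of_nonneg_left hε'.le hε.le]
  linarith

/-- The main theorem for countable families of moduli. -/
theorem main_family (X Y : Type) [MetricSpace X] [CompleteSpace X] [PerfectSpace X]
    [SecondCountableTopology X] [Nonempty X] [MetricSpace Y] [CompleteSpace Y] [PerfectSpace Y]
    [SecondCountableTopology Y] [Nonempty Y] (H : ℕ → ℝ → ℝ) (hH : ∀ n ε, 0 < ε → 0 < H n ε) :
    ∃ (A : Set X) (B : Set Y), Pool.Agent.N642.Lip.AlephOneDense A ∧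
      Pool.Agent.N642.Lip.AlephOneDense B ∧
      ∀ f : X → Y, f '' A ⊆ B → (∀ y ∈ B, {x ∈ A | f x = y}.Countable) →
        ¬ ∃ S : ℕ → Set X, A ⊆ ⋃ n, S n ∧ ∀ n, ∃ m, HasMod (H m) f (S n) := by
  obtain ⟨h, h0, h1⟩ := exists_below H hH
  obtain ⟨A, B, hA, hB, hAB⟩ := main X Y h h0
  refine ⟨A, B, hA, hB, fun f hf hctb => ?_⟩
  rintro ⟨S, hS, hSm⟩
  refine hAB f hf (fun y => ?_) ⟨S, hS, fun n => ?_⟩
  · by_cases hy : y ∈ B
    · exact hctb y hy
    · refine Set.Countable.mono (s₂ := ∅) ?_ Set.countable_empty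
      rintro x ⟨hx, rfl⟩
      exact hy (hf (mem_image_of_mem f hx))
  · obtain ⟨m, hm⟩ := hSm n
    exact hm.mono (h1 m)

end Pool.Agent.KS6_46.BL
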