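import Pool.Graph.R_pool_sql_team_seeded_63374d34.N642.Lip

/-!
# Baumgartner type axioms with a modulus of continuity fail in all perfect Polish spaces

The idea of the proof (sparse points and coding points) is the one of the library file
`R_pool_sql_team_seeded_63374d34/N642/Lip`, which treats the spaces of sequences.
-/

set_option autoImplicit false

open Set Cardinal Filter Topology

namespace Pool.Agent.KS6_46.BL

open Pool.Agent.N642.Lip (W mk_W countable_Iic exists_gt not_countable_univ not_countable_le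
  AlephOneDense)

/-! ### Cantor sets -/

/-- The image of a Cantor set depends, up to `ε`, on finitely many coordinates. -/
lemma exists_nat {X : Type} [MetricSpace X] {φ : (ℕ → Bool) → X} (hφ : Continuous φ) {ε : ℝ}
    (hε : 0 < ε) : ∃ N : ℕ, ∀ z z' : ℕ → Bool, (∀ i < N, z i = z' i) → dist (φ z) (φ z') < ε := by
  classical
  have h1 : ∀ z : ℕ → Bool, ∃ F : Finset ℕ, ∀ z' : ℕ → Bool, (∀ i ∈ F, z i = z' i) →
      dist (φ z') (φ z) < ε / 2 := by
    intro z
    have hU : IsOpen {z' : ℕ → Bool | dist (φ z') (φ z) < ε / 2} :=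
      isOpen_lt (by fun_prop) continuous_const
    have hz : z ∈ {z' : ℕ → Bool | dist (φ z') (φ z) < ε / 2} := by
      simp [hε]
    obtain ⟨I, u, hIu, hsub⟩ := isOpen_pi_iff.mp hU z hz
    refine ⟨I, fun z' hz' => ?_⟩
    have : z' ∈ {z' : ℕ → Bool | dist (φ z') (φ z) < ε / 2} := by
      apply hsub
      intro i hi
      rw [← hz' i hi]
      exact (hIu i hi).2
    exact this
  choose F hF using h1
  have hopen : ∀ z : ℕ → Bool, {z' : ℕ → Bool | ∀ i ∈ F z, z i = z' i} ∈ 𝓝 z := by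
    intro z
    have : {z' : ℕ → Bool | ∀ i ∈ F z, z i = z' i} = ⋂ i ∈ F z, {z' : ℕ → Bool | z i = z' i} := by
      ext z'
      simp
    rw [this]
    apply (Filter.biInter_finset_mem (F z)).mpr
    intro i _
    have ho : IsOpen {z' : ℕ → Bool | z i = z' i} := by
      have : {z' : ℕ → Bool | z i = z' i} = (fun z' : ℕ → Bool => z' i) ⁻¹' {z i} := by
        ext z'
        simp [eq_comm]
      rw [this]
      exact (isOpen_discrete _).preimage (continuous_apply i)
    exact ho.mem_nhds rfl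
  obtain ⟨T, hT⟩ := CompactSpace.elim_nhds_subcover
    (fun z : ℕ → Bool => {z' : ℕ → Bool | ∀ i ∈ F z, z i = z' i}) hopen
  refine ⟨(T.biUnion F).sup id + 1, fun z z' hzz' => ?_⟩
  have hz : z ∈ ⋃ x ∈ T, {z' : ℕ → Bool | ∀ i ∈ F x, x i = z' i} := by
    rw [hT]
    trivial
  simp only [Set.mem_iUnion] at hz
  obtain ⟨x, hxT, hx⟩ := hz
  have hx' : ∀ i ∈ F x, x i = z' i := by
    intro i hi
    rw [hx i hi]
    apply hzz'
    have : i ∈ T.biUnion F := Finset.mem_biUnion.mpr ⟨x, hxT, hi⟩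
    exact Nat.lt_succ_of_le (Finset.le_sup (f := id) this)
  have e1 := hF x z hx
  have e2 := hF x z' hx'
  have e3 := dist_triangle_right (φ z) (φ z') (φ x)
  linarith

/-- The coordinates of a point of a Cantor set are determined up to a small error. -/
lemma exists_delta {Y : Type} [MetricSpace Y] {ψ : (ℕ → Bool) → Y} (hψ : Continuous ψ)
    (hinj : Function.Injective ψ) (k : ℕ) :
    ∃ δ : ℝ, 0 < δ ∧ ∀ b b' : ℕ → Bool, dist (ψ b) (ψ b') < δ → b k = b' k := by
  classical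
  set K : Set ((ℕ → Bool) × (ℕ → Bool)) := {p | p.1 k ≠ p.2 k} with hK
  have hcl : IsClosed K := by
    have : K = (fun p : (ℕ → Bool) × (ℕ → Bool) => (p.1 k, p.2 k)) ⁻¹' {q | q.1 ≠ q.2} := rfl
    rw [this]
    exact (isClosed_discrete _).preimage (by fun_prop)
  rcases K.eq_empty_or_nonempty with h | h
  · refine ⟨1, one_pos, fun b b' _ => ?_⟩
    by_contra hc
    have : (b, b') ∈ K := hc
    rw [h] at this
    exact this
  · obtain ⟨p, hp, hmin⟩ := hcl.isCompact.exists_isMinOn h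
      (f := fun p : (ℕ → Bool) × (ℕ → Bool) => dist (ψ p.1) (ψ p.2)) (by fun_prop)
    have hne : p.1 ≠ p.2 := fun hc => hp (by rw [hc])
    refine ⟨dist (ψ p.1) (ψ p.2), dist_pos.mpr (fun hc => hne (hinj hc)), fun b b' hb => ?_⟩
    by_contra hc
    have h1 : dist (ψ p.1) (ψ p.2) ≤ dist (ψ b) (ψ b') :=
      isMinOn_iff.mp hmin (b, b') hc
    linarith

/-- Every nonempty open subset of a complete metric space without isolated points contains a
Cantor set. -/
lemma exists_cantor {X : Type} [MetricSpace X] [CompleteSpace X] [PerfectSpace X] {U : Set X}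
    (hU : IsOpen U) (hne : U.Nonempty) :
    ∃ φ : (ℕ → Bool) → X, range φ ⊆ U ∧ Continuous φ ∧ Function.Injective φ := by
  obtain ⟨x, hx⟩ := hne
  obtain ⟨r, hr, hrU⟩ := Metric.isOpen_iff.mp hU x hx
  have h1 : Preperfect (Metric.ball x (r / 2) ∩ Set.univ) :=
    (PerfectSpace.univ_preperfect (α := X)).open_inter Metric.isOpen_ball
  have h2 := h1.perfect_closure
  have h3 : (closure (Metric.ball x (r / 2) ∩ Set.univ)).Nonempty :=
    ⟨x, subset_closure ⟨Metric.mem_ball_self (by positivity), trivial⟩⟩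
  obtain ⟨φ, hφ1, hφ2, hφ3⟩ := h2.exists_nat_bool_injection h3
  refine ⟨φ, hφ1.trans ?_, hφ2, hφ3⟩
  rw [inter_univ]
  refine Metric.closure_ball_subset_closedBall.trans ?_
  refine (Metric.closedBall_subset_ball (by linarith)).trans hrU

/-- A countable family of Cantor sets, one in every nonempty open set. -/
lemma exists_family (X : Type) [MetricSpace X] [CompleteSpace X] [PerfectSpace X]
    [SecondCountableTopology X] [Nonempty X] :
    ∃ φ : ℕ → (ℕ → Bool) → X, (∀ n, Continuous (φ n)) ∧ (∀ n, Function.Injective (φ n)) ∧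
      ∀ U : Set X, IsOpen U → U.Nonempty → ∃ n, range (φ n) ⊆ U := by
  classical
  obtain ⟨b, hbc, hb0, hb⟩ := TopologicalSpace.exists_countable_basis X
  have hbne : b.Nonempty := by
    obtain ⟨x⟩ : Nonempty X := inferInstance
    obtain ⟨v, hv, _, _⟩ := hb.exists_subset_of_mem_open (Set.mem_univ x) isOpen_univ
    exact ⟨v, hv⟩
  obtain ⟨e, he⟩ := hbc.exists_eq_range hbne
  have h1 : ∀ n, ∃ φ : (ℕ → Bool) → X, range φ ⊆ e n ∧ Continuous φ ∧ Function.Injective φ := by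
    intro n
    have hen : e n ∈ b := by
      rw [he]
      exact mem_range_self n
    apply exists_cantor (hb.isOpen hen)
    rw [Set.nonempty_iff_ne_empty]
    intro hc
    exact hb0 (hc ▸ hen)
  choose φ h2 h3 h4 using h1
  refine ⟨φ, h3, h4, fun U hU hne => ?_⟩
  obtain ⟨x, hx⟩ := hne
  obtain ⟨v, hv, _, hvU⟩ := hb.exists_subset_of_mem_open hx hU
  rw [he] at hv
  obtain ⟨n, rfl⟩ := hv
  exact ⟨n, (h2 n).trans hvU⟩

/-- An injective family of points of the Cantor set gives an `ℵ₁`-dense set. -/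
lemma dense_of_inj {X : Type} [TopologicalSpace X] (φ : ℕ → (ℕ → Bool) → X)
    (h2 : ∀ n, Function.Injective (φ n))
    (h3 : ∀ U : Set X, IsOpen U → U.Nonempty → ∃ n, range (φ n) ⊆ U) (x : W → ℕ → Bool)
    (hx : Function.Injective x) :
    AlephOneDense (range fun p : ℕ × W => φ p.1 (x p.2)) := by
  intro U hU hne
  refine le_antisymm ?_ ?_
  · refine (mk_le_mk_of_subset inter_subset_left).trans (mk_range_le.trans ?_)
    rw [mk_prod, lift_id, lift_id, mk_W]
    refine (mul_le_mul' (mk_le_aleph0 (α := ℕ)) le_rfl).trans ?_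
    exact (aleph0_mul_eq aleph0_lt_aleph_one.le).le
  · obtain ⟨n, hn⟩ := h3 U hU hne
    have h4 : #W ≤ #((range fun p : ℕ × W => φ p.1 (x p.2)) ∩ U : Set X) := by
      refine Cardinal.mk_le_of_injective (f := fun ξ : W =>
        (⟨φ n (x ξ), ⟨(n, ξ), rfl⟩, hn (mem_range_self _)⟩ :
          ((range fun p : ℕ × W => φ p.1 (x p.2)) ∩ U : Set X))) ?_
      intro ξ η h
      exact hx (h2 n (congrArg Subtype.val h))
    rwa [mk_W] at h4

/-! ### The main theorem -/

/-- At small scales `f` has the modulus of continuity `h` on the set `S`. -/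
def HasMod {X Y : Type} [MetricSpace X] [MetricSpace Y] (h : ℝ → ℝ) (f : X → Y) (S : Set X) :
    Prop :=
  ∃ ε₀ : ℝ, 0 < ε₀ ∧ ∀ ε : ℝ, 0 < ε → ε < ε₀ → ∀ x ∈ S, ∀ y ∈ S, dist x y < h ε →
    dist (f x) (f y) < ε

/-- **Main theorem.** -/
theorem main (X Y : Type) [MetricSpace X] [CompleteSpace X] [PerfectSpace X]
    [SecondCountableTopology X] [Nonempty X] [MetricSpace Y] [CompleteSpace Y] [PerfectSpace Y]
    [SecondCountableTopology Y] [Nonempty Y] (h : ℝ → ℝ) (hh : ∀ ε, 0 < ε → 0 < h ε) :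
    ∃ (A : Set X) (B : Set Y), AlephOneDense A ∧ AlephOneDense B ∧
      ∀ f : X → Y, f '' A ⊆ B → (∀ y, {x ∈ A | f x = y}.Countable) →
        ¬ ∃ S : ℕ → Set X, A ⊆ ⋃ n, S n ∧ ∀ n, HasMod h f (S n) := by
  classical
  obtain ⟨φ, hφ1, hφ2, hφ3⟩ := exists_family X
  obtain ⟨ψ, hψ1, hψ2, hψ3⟩ := exists_family Y
  -- `ℵ₁` many sequences
  obtain ⟨x, hx⟩ : ∃ x : W → ℕ → Bool, Function.Injective x := by
    have h1 : #W ≤ #(ℕ → Bool) := by
      rw [mk_W]
      have : #(ℕ → Bool) = 𝔠 := by simp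
      rw [this]
      exact aleph_one_le_continuum
    obtain ⟨r⟩ := h1
    exact ⟨r, r.injective⟩
  -- the separation of the second family
  choose δ hδ0 hδ using fun t k => exists_delta (hψ1 t) (hψ2 t) k
  have hε : ∀ j : ℕ, ∃ ε : ℝ, 0 < ε ∧ ε < 1 / ((j : ℝ) + 1) ∧
      ∀ p ∈ Finset.range (j + 1) ×ˢ Finset.range (j + 1), ε < δ p.1 (Nat.pair p.2 j) := by
    intro j
    have e1 : ∀ᶠ ε in 𝓝[>] (0 : ℝ), 0 < ε := self_mem_nhdsWithin
    have e2 : ∀ a : ℝ, 0 < a → ∀ᶠ ε in 𝓝[>] (0 : ℝ), ε < a := fun a ha =>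
      (eventually_lt_nhds ha).filter_mono nhdsWithin_le_nhds
    have e3 : ∀ᶠ ε in 𝓝[>] (0 : ℝ), ∀ p ∈ Finset.range (j + 1) ×ˢ Finset.range (j + 1),
        ε < δ p.1 (Nat.pair p.2 j) :=
      (Filter.eventually_all_finset _).mpr (fun p _ => e2 _ (hδ0 _ _))
    obtain ⟨ε, h1, h2, h3⟩ := (e1.and ((e2 (1 / ((j : ℝ) + 1)) (by positivity)).and e3)).exists
    exact ⟨ε, h1, h2, h3⟩
  choose ε ε0 ε1 ε2 using hε
  -- the positions
  choose N hN using fun j : ℕ => exists_nat (hφ1 0) (hh (ε j) (ε0 j))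
  let pos : ℕ → ℕ := fun j => j + ∑ k ∈ Finset.range (j + 1), N k
  have hpos : StrictMono pos := by
    refine strictMono_nat_of_lt_succ fun j => ?_
    simp only [pos]
    rw [Finset.sum_range_succ _ (j + 1)]
    omega
  have hNpos : ∀ j, N j ≤ pos j := by
    intro j
    simp only [pos]
    rw [Finset.sum_range_succ]
    omega
  -- the sparse sequences
  let a : W → ℕ → Bool := fun ξ m => if hm : ∃ j, pos j = m then x ξ hm.choose else false
  have ha : ∀ ξ j, a ξ (pos j) = x ξ j := by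
    intro ξ j
    have hm : ∃ i, pos i = pos j := ⟨j, rfl⟩
    have h1 : hm.choose = j := hpos.injective hm.choose_spec
    simp only [a, dif_pos hm, h1]
  have ha' : ∀ ξ m, (¬ ∃ j, pos j = m) → a ξ m = false := fun ξ m hm => dif_neg hm
  have ainj : Function.Injective a := by
    intro ξ η hab
    apply hx
    funext j
    rw [← ha, ← ha, hab]
  -- the coding sequences
  have hcnt : ∀ ξ : W, ∃ e : ℕ → W, range e = Iic ξ := fun ξ =>
    ((countable_Iic ξ).exists_eq_range ⟨ξ, mem_Iic.2 le_rfl⟩).imp fun e he => he.symm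
  choose e he using hcnt
  let b : W → ℕ → Bool := fun ξ m => x (e ξ (Nat.unpair m).1) (Nat.unpair m).2
  have hb : ∀ ξ i j, b ξ (Nat.pair i j) = x (e ξ i) j := by
    intro ξ i j
    simp only [b, Nat.unpair_pair]
  have binj : Function.Injective b := by
    intro ξ η hbb
    have h1 : e ξ = e η := by
      funext i
      apply hx
      funext j
      rw [← hb, ← hb, hbb]
    have h2 : Iic ξ = Iic η := by rw [← he, ← he, h1]
    have h3 : ξ ∈ Iic η := by rw [← h2]; exact mem_Iic.2 le_rfl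
    have h4 : η ∈ Iic ξ := by rw [h2]; exact mem_Iic.2 le_rfl
    exact le_antisymm h3 h4
  refine ⟨_, _, dense_of_inj φ hφ2 hφ3 a ainj, dense_of_inj ψ hψ2 hψ3 b binj, ?_⟩
  rintro f hmap hctb ⟨S, hAS, hS⟩
  have hmem : ∀ ξ, φ 0 (a ξ) ∈ range fun p : ℕ × W => φ p.1 (a p.2) := fun ξ => ⟨(0, ξ), rfl⟩
  have hval : ∀ ξ, ∃ (t : ℕ) (g : W), f (φ 0 (a ξ)) = ψ t (b g) := by
    intro ξ
    obtain ⟨⟨t, g⟩, hg⟩ := hmap (mem_image_of_mem f (hmem ξ))
    exact ⟨t, g, hg.symm⟩
  choose t g htg using hval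
  have hcell : ∀ ξ, ∃ n, φ 0 (a ξ) ∈ S n := fun ξ => mem_iUnion.mp (hAS (hmem ξ))
  choose s hs using hcell
  have hfib : ∀ η, {ξ | g ξ = η}.Countable := by
    intro η
    have h1 : {ξ | g ξ = η} ⊆ ⋃ u : ℕ, {ξ | f (φ 0 (a ξ)) = ψ u (b η)} := fun ξ hξ => by
      refine mem_iUnion.2 ⟨t ξ, ?_⟩
      have hξ' : g ξ = η := hξ
      show f (φ 0 (a ξ)) = ψ (t ξ) (b η)
      rw [htg, hξ']
    refine (countable_iUnion fun u => ?_).mono h1
    have h2 : {ξ | f (φ 0 (a ξ)) = ψ u (b η)} ⊆ (fun ξ => φ 0 (a ξ)) ⁻¹'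
        {z ∈ range fun p : ℕ × W => φ p.1 (a p.2) | f z = ψ u (b η)} :=
      fun ξ hξ => ⟨hmem ξ, hξ⟩
    exact ((hctb _).preimage (fun ξ η h => ainj (hφ2 0 h))).mono h2
  have hunc := not_countable_le hfib
  -- the code of `a ξ` in `f (a ξ)`
  have hcode : ∀ ξ, ξ ≤ g ξ → ∃ i, e (g ξ) i = ξ := by
    intro ξ hξ
    have : ξ ∈ range (e (g ξ)) := by
      rw [he]
      exact hξ
    exact this
  obtain ⟨u, i, c, hui⟩ : ∃ (u i c : ℕ), ¬ {ξ | t ξ = u ∧ e (g ξ) i = ξ ∧ s ξ = c}.Countable := by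
    by_contra hcon
    push Not at hcon
    apply hunc
    have : {ξ | ξ ≤ g ξ} ⊆ ⋃ (u : ℕ), ⋃ (i : ℕ), ⋃ (c : ℕ),
        {ξ | t ξ = u ∧ e (g ξ) i = ξ ∧ s ξ = c} := by
      intro ξ hξ
      obtain ⟨i, hi⟩ := hcode ξ hξ
      exact mem_iUnion.2 ⟨t ξ, mem_iUnion.2 ⟨i, mem_iUnion.2 ⟨s ξ, rfl, hi, rfl⟩⟩⟩
    exact (countable_iUnion fun u => countable_iUnion fun i => countable_iUnion fun c =>
      hcon u i c).mono this
  obtain ⟨ε₀, hε₀, hmod⟩ := hS c
  obtain ⟨K, hK⟩ := exists_nat_one_div_lt hε₀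
  -- a large number
  let j₀ : ℕ := max (max u i) K
  have hj₁ : u ≤ j₀ := (le_max_left _ _).trans (le_max_left _ _)
  have hj₂ : i ≤ j₀ := (le_max_right _ _).trans (le_max_left _ _)
  have hj₃ : K ≤ j₀ := le_max_right _ _
  obtain ⟨v, hv⟩ : ∃ v : Fin (pos j₀) → Bool,
      ¬ {ξ | (t ξ = u ∧ e (g ξ) i = ξ ∧ s ξ = c) ∧
        (fun m : Fin (pos j₀) => a ξ m) = v}.Countable := by
    by_contra hcon
    push Not at hcon
    apply hui
    have : {ξ | t ξ = u ∧ e (g ξ) i = ξ ∧ s ξ = c} ⊆ ⋃ v : Fin (pos j₀) → Bool,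
        {ξ | (t ξ = u ∧ e (g ξ) i = ξ ∧ s ξ = c) ∧
          (fun m : Fin (pos j₀) => a ξ m) = v} := fun ξ hξ =>
      mem_iUnion.2 ⟨_, hξ, rfl⟩
    exact (countable_iUnion hcon).mono this
  obtain ⟨ξ, hξ, η, hη, hne⟩ : ({ξ | (t ξ = u ∧ e (g ξ) i = ξ ∧ s ξ = c) ∧
      (fun m : Fin (pos j₀) => a ξ m) = v}).Nontrivial := by
    by_contra hcon
    exact hv (Set.not_nontrivial_iff.1 hcon).countable
  obtain ⟨⟨h1, h2, h7⟩, h3⟩ := hξ
  obtain ⟨⟨h4, h5, h8⟩, h6⟩ := hη
  -- the first difference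
  have hdiff : ∃ m, a ξ m ≠ a η m := by
    by_contra hcon
    push Not at hcon
    exact hne (ainj (funext hcon))
  have hn := Nat.find_spec hdiff
  have hmin : ∀ m < Nat.find hdiff, a ξ m = a η m := fun m hm => by
    by_contra hcon
    exact Nat.find_min hdiff hm hcon
  obtain ⟨j, hj⟩ : ∃ j, pos j = Nat.find hdiff := by
    by_contra hcon
    exact hn ((ha' ξ _ hcon).trans (ha' η _ hcon).symm)
  have hj₀ : j₀ ≤ j := by
    by_contra hcon
    have h9 : pos j < pos j₀ := hpos (not_le.1 hcon)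
    have h10 := congrFun (h3.trans h6.symm) ⟨pos j, h9⟩
    rw [← hj] at hn
    exact hn h10
  rw [← hj] at hn hmin
  rw [ha, ha] at hn
  -- the points are close
  have hclose : dist (φ 0 (a ξ)) (φ 0 (a η)) < h (ε j) :=
    hN j (a ξ) (a η) (fun m hm => hmin m (lt_of_lt_of_le hm (hNpos j)))
  have hsmall : ε j < ε₀ := by
    refine (ε1 j).trans (lt_of_le_of_lt ?_ hK)
    apply one_div_le_one_div_of_le (by positivity)
    have : (K : ℝ) ≤ j := by exact_mod_cast hj₃.trans hj₀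
    linarith
  have hS1 : φ 0 (a ξ) ∈ S c := h7 ▸ hs ξ
  have hS2 : φ 0 (a η) ∈ S c := h8 ▸ hs η
  have himg := hmod (ε j) (ε0 j) hsmall _ hS1 _ hS2 hclose
  rw [htg, htg, h1, h4] at himg
  have hlt : ε j < δ u (Nat.pair i j) := by
    have := ε2 j (u, i) (by
      rw [Finset.mem_product]
      constructor
      · exact Finset.mem_range.mpr (by show u < j + 1; omega)
      · exact Finset.mem_range.mpr (by show i < j + 1; omega))
    exact this
  have heq := hδ u (Nat.pair i j) _ _ (himg.trans hlt)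
  rw [hb, hb, h2, h5] at heq
  exact hn heq

end Pool.Agent.KS6_46.BL
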